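import Pool.Agent.H15.SR.Final

set_option autoImplicit false

/-!
# The size Ramsey number of the square grid is almost linear

`r̂(G_{n,n}) ≤ C n^(2+ε)` for every `ε > 0`; more generally the same for every dimension `δ` and every number `k` of
colours: some graph with at most `C n^(δ+ε)` edges arrows the `δ`-dimensional grid of side `n`.
-/

namespace Pool.Agent.Results.MP_7f3477_co.AlmostLinear

open Pool.Agent.H15.SR

/-- For all `k, δ ≥ 1` and `ε > 0` there is `C` such that for all `n ≥ 1` some finite graph with at most `C n^(δ+ε)`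
edges contains, in every colouring of its edges with `k` colours, a monochromatic copy of the `δ`-dimensional grid of
side `n`; and for every `ε > 0` there is `C` such that the two-colour size Ramsey number of the `n × n` grid is at most
`C n^(2+ε)` for all `n ≥ 1`. -/
theorem result :
    (∀ k δ : ℕ, 0 < k → 0 < δ → ∀ ε : ℝ, 0 < ε → ∃ C : ℝ, ∀ n : ℕ, 1 ≤ n →
      ∃ (N : ℕ) (G : SimpleGraph (Fin N)), Arrows k G (gridG δ n) ∧
        (G.edgeSet.ncard : ℝ) ≤ C * (n : ℝ) ^ ((δ : ℝ) + ε)) ∧
    ∀ ε : ℝ, 0 < ε → ∃ C : ℝ, ∀ n : ℕ, 1 ≤ n →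
      (sizeRamsey 2 (SimpleGraph.pathGraph n □ SimpleGraph.pathGraph n) : ℝ) ≤
        C * (n : ℝ) ^ ((2 : ℝ) + ε) := by
  constructor
  · intro k δ hk hδ ε hε
    obtain ⟨C, _, h⟩ := main_exists k δ hk hδ ε hε
    exact ⟨C, h⟩
  · intro ε hε
    obtain ⟨C, _, h⟩ := main 2 2 (by norm_num) (by norm_num) ε hε
    refine ⟨C, fun n hn => ?_⟩
    rw [sizeRamsey_box]
    simpa using h n hn

end Pool.Agent.Results.MP_7f3477_co.AlmostLinear
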